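import Pool.Agent.Helper31.LQ.Goals
import Mathlib

/-!
# Packet LQ-DEC (MP_6fb600_gt)
-/

set_option autoImplicit false

open MeasureTheory Set
open scoped ENNReal

namespace Pool.Agent.Helper51.LQ

open Pool.Agent.Helper31.LQ

theorem gDEC (hA : Pool.Agent.Helper31.LQ.DECA) (hB : Pool.Agent.Helper31.LQ.DECB)
    (hC : Pool.Agent.Helper31.LQ.DECC) : Pool.Agent.Helper31.LQ.DEC := by
  classical
  intro n d hd hdn Y hGP F hF
  have h1 : ∀ π : Equiv.Perm (Fin (n + 1)), (if IsFac Y π then
      ENNReal.ofReal |(mat Y π).det| * ∫⁻ t in pos d, F (lin Y (pr (emb d π t))) else 0) =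
      ∫⁻ z, (if IsFac Y π ∧ z ∈ Cone Y π then F z else 0) := by
    intro π
    by_cases h : IsFac Y π
    · rw [if_pos h, ← (hA n d hd hdn Y π h.1).2 F hF,
        ← lintegral_indicator (hA n d hd hdn Y π h.1).1]
      refine lintegral_congr fun z => ?_
      by_cases hz : z ∈ Cone Y π
      · rw [indicator_of_mem hz, if_pos ⟨h, hz⟩]
      · rw [indicator_of_notMem hz, if_neg (fun h' => hz h'.2)]
    · rw [if_neg h]
      symm
      simp [h]
  have hmeas : ∀ π : Equiv.Perm (Fin (n + 1)),
      Measurable (fun z => if IsFac Y π ∧ z ∈ Cone Y π then F z else 0) := by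
    intro π
    by_cases h : IsFac Y π
    · have h2 : (fun z => if IsFac Y π ∧ z ∈ Cone Y π then F z else 0) =
          (Cone Y π).indicator F := by
        funext z
        by_cases hz : z ∈ Cone Y π
        · rw [indicator_of_mem hz, if_pos ⟨h, hz⟩]
        · rw [indicator_of_notMem hz, if_neg (fun h' => hz h'.2)]
      rw [h2]
      exact hF.indicator (hA n d hd hdn Y π h.1).1
    · have h2 : (fun z => if IsFac Y π ∧ z ∈ Cone Y π then F z else 0) = fun _ => 0 := by
        funext z
        rw [if_neg (fun h' => h h'.1)]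
      rw [h2]
      exact measurable_const
  have h2 : (∑ π : Equiv.Perm (Fin (n + 1)), (if IsFac Y π then
      ENNReal.ofReal |(mat Y π).det| * ∫⁻ t in pos d, F (lin Y (pr (emb d π t))) else 0)) =
      ∫⁻ z, (Nst n d : ℝ≥0∞) * F z := by
    rw [Finset.sum_congr rfl (fun π _ => h1 π), ← lintegral_finset_sum _ (fun π _ => hmeas π)]
    refine lintegral_congr_ae ?_
    filter_upwards [hB n d hd hdn Y hGP] with z hz
    obtain ⟨π, h2, h3⟩ := hz
    have h4 := hC n d hd hdn Y z π h2 h3
    have h5 : (Finset.univ.filter (fun π' : Equiv.Perm (Fin (n + 1)) =>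
        IsFac Y π' ∧ z ∈ Cone Y π')).card = Nst n d := by
      rw [← h4]
      exact (Fintype.card_subtype _).symm
    rw [← Finset.sum_filter, Finset.sum_const, nsmul_eq_mul, h5]
  rw [← lintegral_const_mul _ hF, ← h2]

end Pool.Agent.Helper51.LQ
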