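import Pool.Agent.Helper31.LQ.Goals
import Mathlib

/-!
# Packet LQ-GPID (MP_6fb600_gt)
-/

set_option autoImplicit false

open scoped Matrix

namespace Pool.Agent.Helper51.LQ

open Pool.Agent.Helper31.LQ

/-- the standard basis as columns -/
noncomputable abbrev Yi (n : ℕ) : Fin n → Fin n → ℝ := fun l => Pi.single l 1

theorem lin_id {n : ℕ} (x : Fin n → ℝ) : lin (Yi n) x = x := by
  funext c
  simp [lin, Pi.single_apply]

theorem emb_single {n : ℕ} (π : Equiv.Perm (Fin (n + 1))) (a : Fin n) :
    emb n π (Pi.single a 1) = Pi.single (π a.castSucc) 1 := by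
  funext o
  unfold emb
  by_cases h : o = π a.castSucc
  · subst h
    have h1 : (π.symm (π a.castSucc)).val < n := by
      rw [Equiv.symm_apply_apply]
      exact a.2
    rw [dif_pos h1, Pi.single_eq_same]
    have h2 : (⟨(π.symm (π a.castSucc)).val, h1⟩ : Fin n) = a := by
      apply Fin.ext
      show (π.symm (π a.castSucc)).val = a.val
      rw [Equiv.symm_apply_apply]
      rfl
    rw [h2, Pi.single_eq_same]
  · rw [Pi.single_eq_of_ne h]
    by_cases h1 : (π.symm o).val < n
    · rw [dif_pos h1]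
      apply Pi.single_eq_of_ne
      intro h2
      apply h
      have h3 : π.symm o = a.castSucc := by
        apply Fin.ext
        have h4 := congrArg Fin.val h2
        exact h4
      rw [← h3, Equiv.apply_symm_apply]
    · rw [dif_neg h1]

theorem ver_castSucc {n : ℕ} (a : Fin n) : ver a.castSucc = Pi.single a 1 := by
  funext l
  unfold ver pr
  have h1 : (Fin.last n) ≠ a.castSucc := (Fin.castSucc_lt_last a).ne'
  rw [Pi.single_eq_of_ne h1, sub_zero]
  by_cases h : l = a
  · subst h
    rw [Pi.single_eq_same, Pi.single_eq_same]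
  · rw [Pi.single_eq_of_ne h, Pi.single_eq_of_ne]
    intro h2
    exact h (Fin.castSucc_injective n h2)

theorem sum_ver {n : ℕ} (l : Fin n) : ∑ o : Fin (n + 1), ver o l = 0 := by
  unfold ver pr
  simp [Finset.sum_sub_distrib, Pi.single_apply]

theorem ver_last {n : ℕ} (l : Fin n) : ver (Fin.last n) l = -1 := by
  unfold ver pr
  have h1 : l.castSucc ≠ Fin.last n := (Fin.castSucc_lt_last l).ne
  rw [Pi.single_eq_of_ne h1, Pi.single_eq_same]
  norm_num

/-- the matrix of the permutation -/
noncomputable def R {n : ℕ} (π : Equiv.Perm (Fin (n + 1))) : Matrix (Fin n) (Fin n) ℝ :=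
  Matrix.of fun a => ver (π a.castSucc)

theorem mat_eq {n : ℕ} (π : Equiv.Perm (Fin (n + 1))) : mat (Yi n) π = R π := by
  unfold mat R
  congr 1
  funext a
  rw [lin_id, emb_single]
  rfl

theorem sum_perm {n : ℕ} (ρ : Equiv.Perm (Fin (n + 1))) (o : Fin (n + 1)) (c : Fin n) :
    ∑ b : Fin n, ver o b * ver (ρ b.castSucc) c = ver (ρ o) c := by
  refine Fin.lastCases ?_ (fun l => ?_) o
  · have h1 : ∑ o : Fin (n + 1), ver (ρ o) c = 0 := by
      rw [Equiv.sum_comp ρ (fun o => ver o c)]
      exact sum_ver c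
    rw [Fin.sum_univ_castSucc] at h1
    simp only [ver_last, neg_one_mul, Finset.sum_neg_distrib]
    linarith
  · simp [ver_castSucc, Pi.single_apply]

theorem R_mul {n : ℕ} (π ρ : Equiv.Perm (Fin (n + 1))) : R π * R ρ = R (ρ * π) := by
  ext a c
  rw [Matrix.mul_apply]
  exact sum_perm ρ (π a.castSucc) c

theorem R_one {n : ℕ} : R (1 : Equiv.Perm (Fin (n + 1))) = 1 := by
  ext a c
  show ver ((1 : Equiv.Perm (Fin (n + 1))) a.castSucc) c = _
  rw [Equiv.Perm.one_apply, ver_castSucc, Matrix.one_apply, Pi.single_apply]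
  by_cases h : a = c
  · rw [if_pos h, if_pos h.symm]
  · rw [if_neg h, if_neg (fun h' => h h'.symm)]

theorem R_pow {n : ℕ} (π : Equiv.Perm (Fin (n + 1))) (k : ℕ) : R π ^ k = R (π ^ k) := by
  induction k with
  | zero => rw [pow_zero, pow_zero, R_one]
  | succ k ih => rw [pow_succ, ih, R_mul, ← pow_succ']

theorem abs_det_R {n : ℕ} (π : Equiv.Perm (Fin (n + 1))) : |(R π).det| = 1 := by
  have h1 : (R π).det ^ orderOf π = 1 := by
    rw [← Matrix.det_pow, R_pow, pow_orderOf_eq_one, R_one, Matrix.det_one]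
  have h2 : |(R π).det| ^ orderOf π = 1 := by
    rw [← abs_pow, h1, abs_one]
  exact (pow_eq_one_iff_of_nonneg (abs_nonneg _) (orderOf_pos π).ne').1 h2

theorem kp_last {n : ℕ} (π : Equiv.Perm (Fin (n + 1))) (o : Fin (n + 1))
    (ho : n ≤ (π.symm o).val) : kp (Yi n) π o = 1 := by
  have hdet : IsUnit (R π).det := by
    rw [isUnit_iff_ne_zero]
    intro h
    have h1 := abs_det_R π
    rw [h, abs_zero] at h1
    exact zero_ne_one h1
  have hnu : R π *ᵥ nu (Yi n) π = fun _ => 1 := by
    unfold nu
    rw [mat_eq, Matrix.mulVec_mulVec, Matrix.mul_nonsing_inv _ hdet, Matrix.one_mulVec]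
  have hrow : ∀ a : Fin n, ∑ c, nu (Yi n) π c * ver (π a.castSucc) c = 1 := by
    intro a
    have h1 := congrFun hnu a
    rw [Matrix.mulVec, dotProduct] at h1
    rw [← h1]
    exact Finset.sum_congr rfl fun c _ => mul_comm _ _
  have hol : π.symm o = Fin.last n := by
    apply Fin.ext
    rw [Fin.val_last]
    have := (π.symm o).2
    omega
  have hoe : o = π (Fin.last n) := by
    rw [← hol, Equiv.apply_symm_apply]
  have hy : ∀ c : Fin n, ver o c = -∑ a : Fin n, ver (π a.castSucc) c := by
    intro c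
    have h1 : ∑ o : Fin (n + 1), ver (π o) c = 0 := by
      rw [Equiv.sum_comp π (fun o => ver o c)]
      exact sum_ver c
    rw [Fin.sum_univ_castSucc] at h1
    rw [hoe]
    linarith
  have hs : ∑ c, nu (Yi n) π c * yv (Yi n) o c = -n := by
    unfold yv
    rw [lin_id]
    have h1 : ∀ c : Fin n, nu (Yi n) π c * ver o c =
        -∑ a : Fin n, nu (Yi n) π c * ver (π a.castSucc) c := by
      intro c
      rw [hy, mul_neg, Finset.mul_sum]
    rw [Finset.sum_congr rfl fun c _ => h1 c, Finset.sum_neg_distrib, Finset.sum_comm,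
      Finset.sum_congr rfl fun a _ => hrow a]
    simp
  unfold kp
  rw [hs]
  have h0 : ((n : ℝ) + 1) ≠ 0 := by positivity
  field_simp
  ring

theorem nst_self (n : ℕ) : Nst n n = n.factorial := by
  classical
  unfold Nst
  have hP : ∀ σ : Equiv.Perm (Fin (n + 1)), (∀ o, (σ o).val < n ↔ o.val < n) ↔
      (∀ a, ¬ (a ≠ Fin.last n) → σ a = a) := by
    intro σ
    constructor
    · intro h a ha
      have ha' : a = Fin.last n := not_not.1 ha
      subst ha'
      have h1 := h (Fin.last n)
      apply Fin.ext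
      rw [Fin.val_last] at h1 ⊢
      have h2 := (σ (Fin.last n)).2
      have h3 : ¬ (σ (Fin.last n)).val < n := fun h4 => lt_irrefl n (h1.1 h4)
      omega
    · intro h o
      have hl : σ (Fin.last n) = Fin.last n := h _ (not_not.2 rfl)
      have key : ∀ a : Fin (n + 1), a.val < n ↔ a ≠ Fin.last n := by
        intro a
        rw [Ne, Fin.ext_iff, Fin.val_last]
        have := a.2
        omega
      rw [key, key, not_iff_not]
      constructor
      · intro h1
        exact σ.injective (h1.trans hl.symm)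
      · intro h1
        rw [h1, hl]
  have e1 := Equiv.subtypeEquivRight hP
  have e2 := Equiv.Perm.subtypeEquivSubtypePerm (fun a : Fin (n + 1) => a ≠ Fin.last n)
  rw [Fintype.card_congr (e1.trans e2.symm), Fintype.card_perm]
  congr 1
  simp [Fintype.card_subtype_compl]

theorem gGPID : Pool.Agent.Helper31.LQ.GPID := by
  intro n _
  have hdet : ∀ π : Equiv.Perm (Fin (n + 1)), |(mat (Yi n) π).det| = 1 := by
    intro π
    rw [mat_eq]
    exact abs_det_R π
  have hne : ∀ π : Equiv.Perm (Fin (n + 1)), (mat (Yi n) π).det ≠ 0 := by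
    intro π h
    have h1 := hdet π
    rw [h, abs_zero] at h1
    exact zero_ne_one h1
  refine ⟨fun π => ⟨hne π, fun o ho => ?_⟩, fun x => lin_id x, fun π => ⟨⟨hne π, fun o ho => ?_⟩,
    hdet π⟩, nst_self n⟩
  · rw [kp_last π o ho]
    exact one_ne_zero
  · rw [kp_last π o ho]
    exact one_pos

end Pool.Agent.Helper51.LQ
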